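import Mathlib
import Pool.Agent.Y920.AD.Fin
import Pool.Agent.Y454.AD.MULT1
import Pool.Agent.Y151.AD.GROW1
import Pool.Agent.Y182.AD.FAC3
import Pool.Agent.Y970.AD.FAC2
import Pool.Agent.Y217.AD.PACK
import Pool.Agent.Y177.AD.BLK
import Pool.Agent.Y930.AD.COL
import Pool.Agent.Y542.AD.CNT
import Pool.Agent.Y217.AD.D1
import Pool.Agent.Y888.AD.HEX
import Pool.Agent.Y994.AD.LOW

/-!
# Asymptotic dimension of hyperbolic space with controlled growth, all dimensions

`Hyp d` is real hyperbolic `d`-space (upper half-space model), nets are separated and coarsely dense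
subsets, `asdim F Z` is the asymptotic dimension of `Z` modulo the family `F` of growth functions:
the least `n` such that for every `r` there is a cover of `Z` such that every ball of radius `r` meets
at most `n + 1` members and all members have growth at most `f` for one `f ∈ F` (the definitions are
those of the starting file `Pool/Agent/H983R3/Hyp.lean`).

The question is whether `asdim_{o(poly(d))} = d` in every dimension `d ≥ 1`; here `o(poly(d))` is the
family `oPoly d` of the non-decreasing functions `f` with `f(t) / t ^ d → 0`. The starting result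
`Disproof` gives `≤ 2` for `d = 3`. Here the question is answered in all dimensions except `d = 2`:
the equality holds for `d = 1`, and for EVERY `d ≥ 3` the exact value is `d - 1`. More precisely, for
`d ≥ 2` the value is `d - 1` for every family `F` which contains all non-decreasing functions
`f(t) ≤ C (1 + t) ^ (⌊d/2⌋ + 1)` and consists of functions of subexponential growth. In dimension two
and three quadratic growth is enough.

Proof. Upper bound: write the horizontal space `ℝ^(d-1)` as a product of `⌊d/2⌋` planes and lines, so
that `H^d` is a fibre product over the height of copies of `H^3` and `H^2`. The starting library has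
labels of `H^3` of multiplicity `3` which occupy linearly many boxes in each level; there are similar
labels of `H^2` of multiplicity `2`. For the thresholds `a_j = j R`, `0 ≤ j ≤ d`, let `S_j(x)` be the
set of labels seen from `x` at distance `a_j`. In a factor of horizontal dimension `m` the sets
`S_j(x)` jump at most `m` times, so that for some `j < d` there is no jump in any factor. The points
with this `j` and given `S_j` form the cover; members with the same `j` are `R`-separated, so a ball
of radius `R / 2` meets at most `d` members.
Lower bound: a large cube of a horosphere is only logarithmically large. By the discrete Lebesgue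
covering lemma (from Kuhn's lemma in the starting library) a member contains a chain through the
cube, which has exponential growth, or a ball meets `d` members.

Project AD (helper920) with helper454 (one-dimensional labels, multiplicity), helper151
(one-dimensional labels, growth), helper182 and helper970 (factors), helper217 (packing, the case
`d = 1`), helper177 (blocks), helper930 (jumps), helper542 (counting), helper888 (covering lemma),
helper994 (lower bound).
-/

set_option autoImplicit false

namespace Pool.Agent.Results.MP_28f3fb_gt.ExactValue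

open Pool.Agent.H983R3 Pool.Agent.Y920.AD

theorem fac2 : Fac 2 1 :=
  Pool.Agent.Y970.AD.t_FAC2 t_TRI Pool.Agent.Y454.AD.t_MULT1 Pool.Agent.Y151.AD.t_GROW1

theorem fac3 : Fac 3 2 := Pool.Agent.Y182.AD.t_FAC3 t_TRI

theorem cnt : S_CNT := Pool.Agent.Y542.AD.t_CNT Pool.Agent.Y217.AD.t_PACK

theorem low : S_LOW := Pool.Agent.Y994.AD.t_LOW Pool.Agent.Y888.AD.t_HEX

/-- (1) In every dimension nets exist. (2) For `d ≥ 2`, every net of hyperbolic `d`-space and every
family `F` of functions of subexponential growth which contains the non-decreasing functions bounded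
by a multiple of `(1 + t) ^ (⌊d/2⌋ + 1)` the asymptotic dimension modulo `F` is exactly `d - 1`.
(3) In particular `asdim_{o(poly(d))}` of hyperbolic `d`-space is `d - 1` for every `d ≥ 3`, so that
the conjectured value `d` is wrong for every `d ≥ 3`. (4) For `d = 1` the value is `1`, as
conjectured. -/
theorem result :
    (∀ d, ∃ Z : Set (Hyp d), IsNet Z) ∧
    (∀ d, 2 ≤ d → ∀ Z : Set (Hyp d), IsNet Z → ∀ F : Set (ℝ → ℝ),
      polyUpTo (d / 2 + 1) ⊆ F → F ⊆ subExp → asdim F Z = ((d - 1 : ℕ) : ℕ∞)) ∧
    (∀ d, 3 ≤ d → ∀ Z : Set (Hyp d), IsNet Z →
      asdim (oPoly d) Z = ((d - 1 : ℕ) : ℕ∞) ∧ asdim (oPoly d) Z ≠ (d : ℕ∞)) ∧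
    (∀ Z : Set (Hyp 1), IsNet Z → asdim (oPoly 1) Z = 1) := by
  have main : ∀ d, 2 ≤ d → ∀ Z : Set (Hyp d), IsNet Z → ∀ F : Set (ℝ → ℝ),
      polyUpTo (d / 2 + 1) ⊆ F → F ⊆ subExp → asdim F Z = ((d - 1 : ℕ) : ℕ∞) :=
    fun d hd Z hZ F h1 h2 => exact Pool.Agent.Y177.AD.t_BLK fac2 fac3 cnt
      Pool.Agent.Y930.AD.t_COL low d hd Z hZ F h1 h2
  refine ⟨fun d => exists_net d, main, ?_, Pool.Agent.Y217.AD.t_D1⟩
  intro d hd Z hZ
  have h := main d (by omega) Z hZ (oPoly d) (polyUpTo_subset (by omega)) (oPoly_subset_subExp d)
  refine ⟨h, ?_⟩
  rw [h]
  intro hcon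
  have : d - 1 = d := by exact_mod_cast hcon
  omega

end Pool.Agent.Results.MP_28f3fb_gt.ExactValue
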